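import Pool.Agent.W593.IR.Stm
import Pool.Agent.W840.SamuelsFin

/-!
# Samuels' inequality for `j ≤ r` variables
-/

set_option autoImplicit false

namespace Pool.Agent.W593.IR

open Finset Pool.Agent.W890.SF

theorem sj : S_SJ := by
  classical
  intro V _ _ y r j hy hsum hj
  have hN : (0 : ℝ) < (Fintype.card V : ℝ) := by exact_mod_cast Fintype.card_pos
  have hr : (0 : ℝ) < (r : ℝ) + 1 := by positivity
  have hNL : (NL y j : ℝ) = ∑ f : Fin j → V, (if ∑ i, y (f i) < 1 then (1 : ℝ) else 0) := by
    unfold NL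
    rw [Finset.sum_boole, Set.ncard_eq_toFinset_card']
    congr 2
    ext f
    simp
  have h := Pool.Agent.W840.FeigeCore.samuels_pow (ι := Fin j) (Ω := V)
    (fun _ _ => 1 / (Fintype.card V : ℝ)) (fun _ v => y v)
    (fun _ _ => by positivity)
    (fun _ => by
      rw [Finset.sum_const, Finset.card_univ, nsmul_eq_mul]
      field_simp)
    (fun _ v => hy v) (x := 1 / ((r : ℝ) + 1))
    (by
      rw [Fintype.card_fin, one_div, inv_mul_le_iff₀ hr, mul_one]
      have : (j : ℝ) ≤ (r : ℝ) := by exact_mod_cast hj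
      linarith)
    (fun _ => by
      rw [← Finset.mul_sum]
      have h1 : ∑ v, y v = (Fintype.card V : ℝ) / ((r : ℝ) + 1) := by
        rw [eq_div_iff hr.ne']
        linarith
      rw [h1]
      field_simp)
  rw [Fintype.card_fin] at h
  simp only [Finset.prod_const, Finset.card_univ, Fintype.card_fin] at h
  rw [← Finset.mul_sum, ← hNL] at h
  have hpow : (0 : ℝ) < (Fintype.card V : ℝ) ^ j := by positivity
  calc (1 - 1 / ((r : ℝ) + 1)) ^ j * (Fintype.card V : ℝ) ^ j
      ≤ ((1 / (Fintype.card V : ℝ)) ^ j * (NL y j : ℝ)) * (Fintype.card V : ℝ) ^ j :=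
        mul_le_mul_of_nonneg_right h hpow.le
    _ = (NL y j : ℝ) := by
        rw [one_div, inv_pow]
        field_simp

end Pool.Agent.W593.IR
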